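import Pool.Agent.Helper20.Griff.Goals

/-!
MP_4f6c32_ag, packet G-A1: the determinant of `quatMat`.
-/

set_option autoImplicit false

namespace Pool.Agent.Helper3.GriffCE

open Pool.Agent.Helper20.Griff

section

variable {R : Type*} [CommRing R]

theorem det4 (M : Matrix (Fin 4) (Fin 4) R) : M.det =
    (M 0 0 * (M 1 1 * (M 2 2 * M 3 3 - M 2 3 * M 3 2) - M 1 2 * (M 2 1 * M 3 3 - M 2 3 * M 3 1) + M
    1 3 * (M 2 1 * M 3 2 - M 2 2 * M 3 1)) - M 0 1 * (M 1 0 * (M 2 2 * M 3 3 - M 2 3 * M 3 2) - M 1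
    2 * (M 2 0 * M 3 3 - M 2 3 * M 3 0) + M 1 3 * (M 2 0 * M 3 2 - M 2 2 * M 3 0)) + M 0 2 * (M 1 0
    * (M 2 1 * M 3 3 - M 2 3 * M 3 1) - M 1 1 * (M 2 0 * M 3 3 - M 2 3 * M 3 0) + M 1 3 * (M 2 0 * M
    3 1 - M 2 1 * M 3 0)) - M 0 3 * (M 1 0 * (M 2 1 * M 3 2 - M 2 2 * M 3 1) - M 1 1 * (M 2 0 * M 3
    2 - M 2 2 * M 3 0) + M 1 2 * (M 2 0 * M 3 1 - M 2 1 * M 3 0))) := by
  rw [Matrix.det_succ_row_zero]
  simp only [Fin.sum_univ_succ, Matrix.det_fin_three, Matrix.submatrix_apply]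
  simp [Fin.succAbove]
  ring

theorem det5 (M : Matrix (Fin 5) (Fin 5) R) : M.det =
    (M 0 0 * (M 1 1 * (M 2 2 * (M 3 3 * M 4 4 - M 3 4 * M 4 3) - M 2 3 * (M 3 2 * M 4 4 - M 3 4 * M
    4 2) + M 2 4 * (M 3 2 * M 4 3 - M 3 3 * M 4 2)) - M 1 2 * (M 2 1 * (M 3 3 * M 4 4 - M 3 4 * M 4
    3) - M 2 3 * (M 3 1 * M 4 4 - M 3 4 * M 4 1) + M 2 4 * (M 3 1 * M 4 3 - M 3 3 * M 4 1)) + M 1 3
    * (M 2 1 * (M 3 2 * M 4 4 - M 3 4 * M 4 2) - M 2 2 * (M 3 1 * M 4 4 - M 3 4 * M 4 1) + M 2 4 *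
    (M 3 1 * M 4 2 - M 3 2 * M 4 1)) - M 1 4 * (M 2 1 * (M 3 2 * M 4 3 - M 3 3 * M 4 2) - M 2 2 * (M
    3 1 * M 4 3 - M 3 3 * M 4 1) + M 2 3 * (M 3 1 * M 4 2 - M 3 2 * M 4 1))) - M 0 1 * (M 1 0 * (M 2
    2 * (M 3 3 * M 4 4 - M 3 4 * M 4 3) - M 2 3 * (M 3 2 * M 4 4 - M 3 4 * M 4 2) + M 2 4 * (M 3 2 *
    M 4 3 - M 3 3 * M 4 2)) - M 1 2 * (M 2 0 * (M 3 3 * M 4 4 - M 3 4 * M 4 3) - M 2 3 * (M 3 0 * M
    4 4 - M 3 4 * M 4 0) + M 2 4 * (M 3 0 * M 4 3 - M 3 3 * M 4 0)) + M 1 3 * (M 2 0 * (M 3 2 * M 4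
    4 - M 3 4 * M 4 2) - M 2 2 * (M 3 0 * M 4 4 - M 3 4 * M 4 0) + M 2 4 * (M 3 0 * M 4 2 - M 3 2 *
    M 4 0)) - M 1 4 * (M 2 0 * (M 3 2 * M 4 3 - M 3 3 * M 4 2) - M 2 2 * (M 3 0 * M 4 3 - M 3 3 * M
    4 0) + M 2 3 * (M 3 0 * M 4 2 - M 3 2 * M 4 0))) + M 0 2 * (M 1 0 * (M 2 1 * (M 3 3 * M 4 4 - M
    3 4 * M 4 3) - M 2 3 * (M 3 1 * M 4 4 - M 3 4 * M 4 1) + M 2 4 * (M 3 1 * M 4 3 - M 3 3 * M 4
    1)) - M 1 1 * (M 2 0 * (M 3 3 * M 4 4 - M 3 4 * M 4 3) - M 2 3 * (M 3 0 * M 4 4 - M 3 4 * M 4 0)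
    + M 2 4 * (M 3 0 * M 4 3 - M 3 3 * M 4 0)) + M 1 3 * (M 2 0 * (M 3 1 * M 4 4 - M 3 4 * M 4 1) -
    M 2 1 * (M 3 0 * M 4 4 - M 3 4 * M 4 0) + M 2 4 * (M 3 0 * M 4 1 - M 3 1 * M 4 0)) - M 1 4 * (M
    2 0 * (M 3 1 * M 4 3 - M 3 3 * M 4 1) - M 2 1 * (M 3 0 * M 4 3 - M 3 3 * M 4 0) + M 2 3 * (M 3 0
    * M 4 1 - M 3 1 * M 4 0))) - M 0 3 * (M 1 0 * (M 2 1 * (M 3 2 * M 4 4 - M 3 4 * M 4 2) - M 2 2 *
    (M 3 1 * M 4 4 - M 3 4 * M 4 1) + M 2 4 * (M 3 1 * M 4 2 - M 3 2 * M 4 1)) - M 1 1 * (M 2 0 * (M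
    3 2 * M 4 4 - M 3 4 * M 4 2) - M 2 2 * (M 3 0 * M 4 4 - M 3 4 * M 4 0) + M 2 4 * (M 3 0 * M 4 2
    - M 3 2 * M 4 0)) + M 1 2 * (M 2 0 * (M 3 1 * M 4 4 - M 3 4 * M 4 1) - M 2 1 * (M 3 0 * M 4 4 -
    M 3 4 * M 4 0) + M 2 4 * (M 3 0 * M 4 1 - M 3 1 * M 4 0)) - M 1 4 * (M 2 0 * (M 3 1 * M 4 2 - M
    3 2 * M 4 1) - M 2 1 * (M 3 0 * M 4 2 - M 3 2 * M 4 0) + M 2 2 * (M 3 0 * M 4 1 - M 3 1 * M 4
    0))) + M 0 4 * (M 1 0 * (M 2 1 * (M 3 2 * M 4 3 - M 3 3 * M 4 2) - M 2 2 * (M 3 1 * M 4 3 - M 3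
    3 * M 4 1) + M 2 3 * (M 3 1 * M 4 2 - M 3 2 * M 4 1)) - M 1 1 * (M 2 0 * (M 3 2 * M 4 3 - M 3 3
    * M 4 2) - M 2 2 * (M 3 0 * M 4 3 - M 3 3 * M 4 0) + M 2 3 * (M 3 0 * M 4 2 - M 3 2 * M 4 0)) +
    M 1 2 * (M 2 0 * (M 3 1 * M 4 3 - M 3 3 * M 4 1) - M 2 1 * (M 3 0 * M 4 3 - M 3 3 * M 4 0) + M 2
    3 * (M 3 0 * M 4 1 - M 3 1 * M 4 0)) - M 1 3 * (M 2 0 * (M 3 1 * M 4 2 - M 3 2 * M 4 1) - M 2 1
    * (M 3 0 * M 4 2 - M 3 2 * M 4 0) + M 2 2 * (M 3 0 * M 4 1 - M 3 1 * M 4 0)))) := by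
  rw [Matrix.det_succ_row_zero]
  simp only [Fin.sum_univ_succ, det4, Matrix.submatrix_apply]
  simp [Fin.succAbove]
  ring

theorem min0 (v : Fin 15 → R) : Matrix.det
    (!![v 0, v 13, v 14, - v 9, v 7;
      - v 12, v 1, 0, v 3, v 4;
      v 11, 0, v 1, v 5, v 6;
      v 8, v 6, - v 4, v 2, 0;
      v 10, - v 5, v 3, 0, v 2] : Matrix (Fin 5) (Fin 5) R) =
    ((v 1 * v 2 - (v 3 * v 6 - v 4 * v 5)) * cub v) := by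
  rw [det5]
  simp only [Matrix.of_apply, Matrix.cons_val]
  unfold cub
  ring

theorem min1 (v : Fin 15 → R) : Matrix.det
    (!![0, v 13, v 14, - v 9, v 7;
      v 14, v 1, 0, v 3, v 4;
      - v 13, 0, v 1, v 5, v 6;
      v 7, v 6, - v 4, v 2, 0;
      v 9, - v 5, v 3, 0, v 2] : Matrix (Fin 5) (Fin 5) R) =
    0 := by
  rw [det5]
  simp only [Matrix.of_apply, Matrix.cons_val]
  ring

theorem min2 (v : Fin 15 → R) : Matrix.det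
    (!![0, v 0, v 14, - v 9, v 7;
      v 14, - v 12, 0, v 3, v 4;
      - v 13, v 11, v 1, v 5, v 6;
      v 7, v 8, - v 4, v 2, 0;
      v 9, v 10, v 3, 0, v 2] : Matrix (Fin 5) (Fin 5) R) =
    ((- (v 2 * v 14) + v 3 * v 7 + v 4 * v 9) * cub v) := by
  rw [det5]
  simp only [Matrix.of_apply, Matrix.cons_val]
  unfold cub
  ring

theorem min3 (v : Fin 15 → R) : Matrix.det
    (!![0, v 0, v 13, - v 9, v 7;
      v 14, - v 12, v 1, v 3, v 4;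
      - v 13, v 11, 0, v 5, v 6;
      v 7, v 8, v 6, v 2, 0;
      v 9, v 10, - v 5, 0, v 2] : Matrix (Fin 5) (Fin 5) R) =
    -((v 2 * v 13 + v 5 * v 7 + v 6 * v 9) * cub v) := by
  rw [det5]
  simp only [Matrix.of_apply, Matrix.cons_val]
  unfold cub
  ring

theorem min4 (v : Fin 15 → R) : Matrix.det
    (!![0, v 0, v 13, v 14, v 7;
      v 14, - v 12, v 1, 0, v 4;
      - v 13, v 11, 0, v 1, v 6;
      v 7, v 8, v 6, - v 4, 0;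
      v 9, v 10, - v 5, v 3, v 2] : Matrix (Fin 5) (Fin 5) R) =
    ((- (v 1 * v 7) + v 13 * v 4 + v 14 * v 6) * cub v) := by
  rw [det5]
  simp only [Matrix.of_apply, Matrix.cons_val]
  unfold cub
  ring

theorem min5 (v : Fin 15 → R) : Matrix.det
    (!![0, v 0, v 13, v 14, - v 9;
      v 14, - v 12, v 1, 0, v 3;
      - v 13, v 11, 0, v 1, v 5;
      v 7, v 8, v 6, - v 4, v 2;
      v 9, v 10, - v 5, v 3, 0] : Matrix (Fin 5) (Fin 5) R) =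
    ((v 1 * v 9 + v 13 * v 3 + v 14 * v 5) * cub v) := by
  rw [det5]
  simp only [Matrix.of_apply, Matrix.cons_val]
  unfold cub
  ring

end

theorem stmtDet : StmtDet := by
  intro R _ v
  rw [Matrix.det_succ_row_zero]
  have e : ∀ j : Fin 6, (quatMat v).submatrix Fin.succ (Fin.succAbove j) =
      ![
!![v 0, v 13, v 14, - v 9, v 7;
      - v 12, v 1, 0, v 3, v 4;
      v 11, 0, v 1, v 5, v 6;
      v 8, v 6, - v 4, v 2, 0;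
      v 10, - v 5, v 3, 0, v 2],
      !![0, v 13, v 14, - v 9, v 7;
      v 14, v 1, 0, v 3, v 4;
      - v 13, 0, v 1, v 5, v 6;
      v 7, v 6, - v 4, v 2, 0;
      v 9, - v 5, v 3, 0, v 2],
      !![0, v 0, v 14, - v 9, v 7;
      v 14, - v 12, 0, v 3, v 4;
      - v 13, v 11, v 1, v 5, v 6;
      v 7, v 8, - v 4, v 2, 0;
      v 9, v 10, v 3, 0, v 2],
      !![0, v 0, v 13, - v 9, v 7;
      v 14, - v 12, v 1, v 3, v 4;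
      - v 13, v 11, 0, v 5, v 6;
      v 7, v 8, v 6, v 2, 0;
      v 9, v 10, - v 5, 0, v 2],
      !![0, v 0, v 13, v 14, v 7;
      v 14, - v 12, v 1, 0, v 4;
      - v 13, v 11, 0, v 1, v 6;
      v 7, v 8, v 6, - v 4, 0;
      v 9, v 10, - v 5, v 3, v 2],
      !![0, v 0, v 13, v 14, - v 9;
      v 14, - v 12, v 1, 0, v 3;
      - v 13, v 11, 0, v 1, v 5;
      v 7, v 8, v 6, - v 4, v 2;
      v 9, v 10, - v 5, v 3, 0]] j := by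
    intro j
    fin_cases j <;> (ext a b; fin_cases a <;> fin_cases b <;> rfl)
  simp only [e]
  rw [Fin.sum_univ_six]
  simp only [Matrix.cons_val, min0, min1, min2, min3, min4, min5]
  simp only [quatMat, Matrix.of_apply, Matrix.cons_val]
  unfold cub
  simp
  ring

end Pool.Agent.Helper3.GriffCE
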